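import Pool.Agent.Q164.LZ.FN

/-!
# MP_cd3f56_nt: a logarithmic integral and odd zeta values

We answer Q1 affirmatively: for every `n ≥ 1` the integral
`I_n = ∫_0^1 log^{n+1}(1-x) log^n(1+x) / (1+x) dx` is a polynomial with rational coefficients in
`π²`, `log 2` and the odd zeta values `ζ(3), ζ(5), …`.

Proof idea: with `x = 2u - 1` and `W(u) = log^n(2u) (log^{n+1}(2(1-u)) - log^{n+1} 2) / u` one has
`I_n = ∫_{1/2}^1 W + log^{2n+2} 2 / (n+1)`, and integration by parts with the reflection `u ↦ 1-u`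
gives `I_n = ∫_0^{1/2} W`. Hence `2 I_n = ∫_0^1 W + log^{2n+2} 2 / (n+1)`, and `∫_0^1 W` is a
combination of the integrals `∫_0^1 log^p u log^q (1-u) / u du`, `q ≥ 1`, whose generating function
is the Beta function, that is the exponential of a power series in zeta values.
-/

open Real MeasureTheory Pool.Agent.Q164.LZ

noncomputable section

namespace Pool.Agent.Results.MP_cd3f56_nt.LogIntegral

/-- The integrand of `I_n`: `log^{n+1}(1-x) log^n(1+x) / (1+x)`. -/
def integrand (n : ℕ) (x : ℝ) : ℝ :=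
  log (1 - x) ^ (n + 1) * log (1 + x) ^ n / (1 + x)

/-- `I_n`, the integral of the integrand over `[0, 1]`. -/
def I (n : ℕ) : ℝ := ∫ x in (0 : ℝ)..1, integrand n x

/-- The `ℚ`-subalgebra of `ℝ` generated by `π²`, `log 2` and the Riemann zeta values `ζ(k)` for all
odd integers `k ≥ 3`. -/
def zetaAlgebra : Subalgebra ℚ ℝ :=
  Algebra.adjoin ℚ
    ({π ^ 2, log 2} ∪ {y : ℝ | ∃ k : ℕ, Odd k ∧ 3 ≤ k ∧ (y : ℂ) = riemannZeta (k : ℂ)})

theorem Alg_le : Alg ≤ zetaAlgebra := by
  refine Algebra.adjoin_mono ?_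
  refine Set.union_subset_union_right _ ?_
  rintro y ⟨k, h1, h2, rfl⟩
  exact ⟨k, h1, h2, Zt_zeta (by omega)⟩

/-- **Affirmative answer to Q1.** For every `n ≥ 1` the integrand of `I_n` is (absolutely)
integrable on `[0, 1]` and `I_n` lies in the algebra generated by `π²`, `log 2` and the odd zeta
values. -/
theorem result (n : ℕ) (_hn : 1 ≤ n) :
    IntervalIntegrable (integrand n) volume 0 1 ∧ I n ∈ zetaAlgebra :=
  ⟨f_int n, Alg_le (f_mem n)⟩

end Pool.Agent.Results.MP_cd3f56_nt.LogIntegral
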